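import Pool.Agent.QSN.StmtsB2

set_option autoImplicit false

/-!
# Squad QSN (MP_dc0713_gt), row MAJ: the majority argument (pure counting)
-/

namespace Pool.Agent.QSN.H75

open Finset Pool.Agent.QSN
open scoped Classical

theorem card_Bx {D : ℕ} (N : ℕ) (a : Fin D → ℕ) : (Bx N a).card = N ^ D := by
  unfold Bx
  rw [Fintype.card_piFinset]
  have h : ∀ k : Fin D, (Finset.Ico (-(a k : ℤ)) ((N : ℤ) - a k)).card = N := by
    intro k
    rw [Int.card_Ico]
    have : (N : ℤ) - a k - -(a k : ℤ) = N := by ring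
    rw [this]
    simp
  simp only [h]
  simp

theorem mem_Bx {D : ℕ} {N : ℕ} {a : Fin D → ℕ} {m : Fin D → ℤ} :
    m ∈ Bx N a ↔ ∀ k, m k ∈ Finset.Ico (-(a k : ℤ)) ((N : ℤ) - a k) := by
  unfold Bx
  rw [Fintype.mem_piFinset]

theorem edge1 (N a : ℕ) (z : ℤ) (K : ℕ) (hz : |z| ≤ (K : ℤ)) :
    ((Finset.Ico (-(a : ℤ)) ((N : ℤ) - a)).filter
      (fun x => x + z ∉ Finset.Ico (-(a : ℤ)) ((N : ℤ) - a))).card ≤ K := by
  rw [abs_le] at hz
  rcases le_or_gt 0 z with h | h
  · have hs : (Finset.Ico (-(a : ℤ)) ((N : ℤ) - a)).filter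
        (fun x => x + z ∉ Finset.Ico (-(a : ℤ)) ((N : ℤ) - a)) ⊆
        Finset.Ico ((N : ℤ) - a - z) ((N : ℤ) - a) := by
      intro x hx
      rw [Finset.mem_filter, Finset.mem_Ico, Finset.mem_Ico] at hx
      rw [Finset.mem_Ico]
      obtain ⟨⟨h1, h2⟩, h3⟩ := hx
      refine ⟨?_, h2⟩
      by_contra h4
      apply h3
      constructor <;> linarith
    refine (Finset.card_le_card hs).trans ?_
    rw [Int.card_Ico]
    omega
  · have hs : (Finset.Ico (-(a : ℤ)) ((N : ℤ) - a)).filter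
        (fun x => x + z ∉ Finset.Ico (-(a : ℤ)) ((N : ℤ) - a)) ⊆
        Finset.Ico (-(a : ℤ)) (-(a : ℤ) - z) := by
      intro x hx
      rw [Finset.mem_filter, Finset.mem_Ico, Finset.mem_Ico] at hx
      rw [Finset.mem_Ico]
      obtain ⟨⟨h1, h2⟩, h3⟩ := hx
      refine ⟨h1, ?_⟩
      by_contra h4
      apply h3
      constructor <;> linarith
    refine (Finset.card_le_card hs).trans ?_
    rw [Int.card_Ico]
    omega

theorem edgek {D : ℕ} (N : ℕ) (a : Fin D → ℕ) (z : Fin D → ℤ) (K : ℕ)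
    (hz : ∀ k, |z k| ≤ (K : ℤ)) (k : Fin D) :
    N * ((Bx N a).filter
      (fun m => m k + z k ∉ Finset.Ico (-(a k : ℤ)) ((N : ℤ) - a k))).card ≤ K * N ^ D := by
  set f : Fin D → Finset ℤ := fun i => if i = k then
    (Finset.Ico (-(a i : ℤ)) ((N : ℤ) - a i)).filter
      (fun x => x + z i ∉ Finset.Ico (-(a i : ℤ)) ((N : ℤ) - a i))
    else Finset.Ico (-(a i : ℤ)) ((N : ℤ) - a i) with hf
  have e : (Bx N a).filter
      (fun m => m k + z k ∉ Finset.Ico (-(a k : ℤ)) ((N : ℤ) - a k)) = Fintype.piFinset f := by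
    ext m
    rw [Finset.mem_filter, mem_Bx, Fintype.mem_piFinset]
    constructor
    · rintro ⟨h1, h2⟩ i
      by_cases hi : i = k
      · subst hi
        simp only [hf, if_true]
        rw [Finset.mem_filter]
        exact ⟨h1 i, h2⟩
      · simp only [hf, if_neg hi]
        exact h1 i
    · intro h
      have hk := h k
      simp only [hf, if_true] at hk
      rw [Finset.mem_filter] at hk
      refine ⟨fun i => ?_, hk.2⟩
      by_cases hi : i = k
      · subst hi
        exact hk.1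
      · have := h i
        simp only [hf, if_neg hi] at this
        exact this
  rw [e, Fintype.card_piFinset]
  have hP : ∏ i ∈ Finset.univ.erase k, (f i).card = ∏ _i ∈ Finset.univ.erase k, N := by
    refine Finset.prod_congr rfl fun i hi => ?_
    have hik : i ≠ k := Finset.ne_of_mem_erase hi
    simp only [hf, if_neg hik]
    rw [Int.card_Ico]
    have : (N : ℤ) - a i - -(a i : ℤ) = N := by ring
    rw [this]
    simp
  have hN : N ^ D = N * ∏ _i ∈ Finset.univ.erase k, N := by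
    rw [Finset.mul_prod_erase Finset.univ (fun _ => N) (Finset.mem_univ k)]
    simp
  have hk : (f k).card ≤ K := by
    simp only [hf, if_true]
    exact edge1 N (a k) (z k) K (hz k)
  rw [← Finset.mul_prod_erase Finset.univ (fun i => (f i).card) (Finset.mem_univ k), hP, hN]
  calc N * ((f k).card * ∏ _i ∈ Finset.univ.erase k, N)
      = (f k).card * (N * ∏ _i ∈ Finset.univ.erase k, N) := by ring
    _ ≤ K * (N * ∏ _i ∈ Finset.univ.erase k, N) := Nat.mul_le_mul_right _ hk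

theorem edgeD {D : ℕ} (N : ℕ) (a : Fin D → ℕ) (z : Fin D → ℤ) (K : ℕ)
    (hz : ∀ k, |z k| ≤ (K : ℤ)) :
    N * ((Bx N a).filter (fun m => m + z ∉ Bx N a)).card ≤ D * (K * N ^ D) := by
  have hs : (Bx N a).filter (fun m => m + z ∉ Bx N a) ⊆
      Finset.univ.biUnion (fun k : Fin D => (Bx N a).filter
      (fun m => m k + z k ∉ Finset.Ico (-(a k : ℤ)) ((N : ℤ) - a k))) := by
    intro m hm
    rw [Finset.mem_filter] at hm
    rw [Finset.mem_biUnion]
    obtain ⟨h1, h2⟩ := hm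
    rw [mem_Bx] at h2
    push Not at h2
    obtain ⟨k, hk⟩ := h2
    refine ⟨k, Finset.mem_univ k, ?_⟩
    rw [Finset.mem_filter]
    exact ⟨h1, hk⟩
  calc N * ((Bx N a).filter (fun m => m + z ∉ Bx N a)).card
      ≤ N * ∑ k : Fin D, ((Bx N a).filter
      (fun m => m k + z k ∉ Finset.Ico (-(a k : ℤ)) ((N : ℤ) - a k))).card :=
        Nat.mul_le_mul_left _ ((Finset.card_le_card hs).trans Finset.card_biUnion_le)
    _ = ∑ k : Fin D, N * ((Bx N a).filter
      (fun m => m k + z k ∉ Finset.Ico (-(a k : ℤ)) ((N : ℤ) - a k))).card := by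
        rw [Finset.mul_sum]
    _ ≤ ∑ _k : Fin D, K * N ^ D := Finset.sum_le_sum fun k _ => edgek N a z K hz k
    _ = D * (K * N ^ D) := by simp

/-- the number of points which leave the box -/
theorem edgeR {D : ℕ} (M : ℕ) (hM : 0 < M) (a : Fin D → ℕ) (z : Fin D → ℤ)
    (hz : ∀ k, |z k| ≤ 2 * (M : ℤ)) :
    (((Bx (HH D * M) a).filter (fun m => m + z ∉ Bx (HH D * M) a)).card : ℝ) ≤
      1 / 16 * ((HH D * M : ℕ) : ℝ) ^ D := by
  have h := edgeD (HH D * M) a z (2 * M) (by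
    intro k
    have := hz k
    push_cast
    exact this)
  set N := HH D * M with hN
  have hNM : N = 32 * (D + 1) * M := by rw [hN]; rfl
  have hN0 : (0 : ℝ) < N := by
    have : 0 < N := by
      rw [hNM]
      positivity
    exact_mod_cast this
  set c := ((Bx N a).filter (fun m => m + z ∉ Bx N a)).card with hc
  have h' : (N : ℝ) * c ≤ D * (2 * M * (N : ℝ) ^ D) := by
    have : ((N * c : ℕ) : ℝ) ≤ ((D * (2 * M * N ^ D) : ℕ) : ℝ) := by exact_mod_cast h
    push_cast at this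
    exact this
  have hNr : (N : ℝ) = 32 * (D + 1) * M := by
    rw [hNM]
    push_cast
    ring
  have hDM : (D : ℝ) * (2 * M) ≤ N * (1 / 16) := by
    rw [hNr]
    have hM' : (0 : ℝ) ≤ M := Nat.cast_nonneg M
    nlinarith
  have hpow : (0 : ℝ) ≤ (N : ℝ) ^ D := by positivity
  have h2 : (N : ℝ) * c ≤ N * (1 / 16 * (N : ℝ) ^ D) := by
    calc (N : ℝ) * c ≤ D * (2 * M * (N : ℝ) ^ D) := h'
      _ = (D * (2 * M)) * (N : ℝ) ^ D := by ring
      _ ≤ (N * (1 / 16)) * (N : ℝ) ^ D := mul_le_mul_of_nonneg_right hDM hpow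
      _ = N * (1 / 16 * (N : ℝ) ^ D) := by ring
  exact le_of_mul_le_mul_left h2 hN0

theorem exists_n {D M : ℕ} {a : Fin D → ℕ} {ε : ℝ} {g : (Fin D → ℤ) → (Fin D → ℤ) → Prop}
    (hM : 0 < M) (hε : ε ≤ 1 / 64)
    (h1 : ((((Bx (HH D * M) a ×ˢ Bx (HH D * M) a).filter
      (fun q => ¬ g q.1 q.2)).card : ℕ) : ℝ) ≤ ε * ((HH D * M : ℕ) : ℝ) ^ (2 * D))
    (z : Fin D → ℤ) (hz : ∀ k, |z k| ≤ 2 * (M : ℤ)) :
    ∃ n ∈ Bx (HH D * M) a, n + z ∈ Bx (HH D * M) a ∧
      (((Bx (HH D * M) a).filter (fun m => ¬ (m + z ∈ Bx (HH D * M) a ∧ g n m ∧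
        g (n + z) (m + z)))).card : ℝ) ≤ 1 / 8 * ((HH D * M : ℕ) : ℝ) ^ D := by
  have hE := edgeR M hM a z hz
  set N := HH D * M with hN
  set B := Bx N a with hB
  have hcB : B.card = N ^ D := card_Bx N a
  have hN0 : 0 < N := by
    rw [hN]
    unfold HH
    positivity
  have hNr : (0 : ℝ) < (N : ℝ) ^ D := by
    have : (0 : ℝ) < N := by exact_mod_cast hN0
    positivity
  set Bz := B.filter (fun n => n + z ∈ B) with hBz
  have hcz : (Bz.card : ℝ) = (N : ℝ) ^ D - ((B.filter (fun m => m + z ∉ B)).card : ℝ) := by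
    have h := Finset.card_filter_add_card_filter_not (s := B) (fun n => n + z ∈ B)
    have h' : ((Bz.card : ℕ) : ℝ) + ((B.filter (fun m => m + z ∉ B)).card : ℝ) = (B.card : ℝ) := by
      exact_mod_cast h
    rw [hcB] at h'
    push_cast at h'
    linarith
  set bad : (Fin D → ℤ) → Finset (Fin D → ℤ) := fun n =>
    B.filter (fun m => m + z ∈ B ∧ (¬ g n m ∨ ¬ g (n + z) (m + z))) with hbad
  -- the sum of the numbers of bad points
  have hsum : (∑ n ∈ Bz, ((bad n).card : ℝ)) ≤ 2 * (ε * (N : ℝ) ^ (2 * D)) := by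
    have e1 : (∑ n ∈ Bz, (bad n).card) = ((Bz ×ˢ B).filter (fun q => q.2 + z ∈ B ∧
        (¬ g q.1 q.2 ∨ ¬ g (q.1 + z) (q.2 + z)))).card := by
      rw [Finset.card_filter, Finset.sum_product]
      refine Finset.sum_congr rfl fun n _ => ?_
      rw [hbad, Finset.card_filter]
    have e2 : (Bz ×ˢ B).filter (fun q => q.2 + z ∈ B ∧
        (¬ g q.1 q.2 ∨ ¬ g (q.1 + z) (q.2 + z))) ⊆
        ((B ×ˢ B).filter (fun q => ¬ g q.1 q.2)) ∪
        ((Bz ×ˢ B).filter (fun q => q.2 + z ∈ B ∧ ¬ g (q.1 + z) (q.2 + z))) := by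
      intro q hq
      rw [Finset.mem_filter, Finset.mem_product] at hq
      obtain ⟨⟨q1, q2⟩, q3, q4⟩ := hq
      rw [Finset.mem_union, Finset.mem_filter, Finset.mem_filter, Finset.mem_product,
        Finset.mem_product]
      rcases q4 with q4 | q4
      · exact Or.inl ⟨⟨(Finset.mem_filter.1 q1).1, q2⟩, q4⟩
      · exact Or.inr ⟨⟨q1, q2⟩, q3, q4⟩
    have e3 : ((Bz ×ˢ B).filter (fun q => q.2 + z ∈ B ∧ ¬ g (q.1 + z) (q.2 + z))).card ≤
        ((B ×ˢ B).filter (fun q => ¬ g q.1 q.2)).card := by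
      refine Finset.card_le_card_of_injOn (fun q => (q.1 + z, q.2 + z)) ?_ ?_
      · intro q hq
        rw [Finset.mem_coe, Finset.mem_filter, Finset.mem_product] at hq
        obtain ⟨⟨q1, q2⟩, q3, q4⟩ := hq
        rw [Finset.mem_coe, Finset.mem_filter, Finset.mem_product]
        exact ⟨⟨(Finset.mem_filter.1 q1).2, q3⟩, q4⟩
      · intro q _ q' _ hqq
        simp only [Prod.mk.injEq, add_left_inj] at hqq
        exact Prod.ext hqq.1 hqq.2
    have e4 : (∑ n ∈ Bz, (bad n).card) ≤ 2 * ((B ×ˢ B).filter (fun q => ¬ g q.1 q.2)).card := by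
      rw [e1]
      refine (Finset.card_le_card e2).trans ((Finset.card_union_le _ _).trans ?_)
      omega
    have e5 : (∑ n ∈ Bz, ((bad n).card : ℝ)) ≤
        2 * (((B ×ˢ B).filter (fun q => ¬ g q.1 q.2)).card : ℝ) := by
      exact_mod_cast e4
    linarith
  -- one of the points is good
  have hex : ∃ n ∈ Bz, ((bad n).card : ℝ) ≤ 1 / 24 * (N : ℝ) ^ D := by
    by_contra hcon
    push Not at hcon
    have h2 : (∑ _n ∈ Bz, 1 / 24 * (N : ℝ) ^ D) ≤ ∑ n ∈ Bz, ((bad n).card : ℝ) :=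
      Finset.sum_le_sum fun n hn => (hcon n hn).le
    rw [Finset.sum_const, nsmul_eq_mul] at h2
    have h3 : 15 / 16 * (N : ℝ) ^ D ≤ (Bz.card : ℝ) := by
      rw [hcz]
      linarith
    have h4 : (N : ℝ) ^ (2 * D) = (N : ℝ) ^ D * (N : ℝ) ^ D := by
      rw [two_mul, pow_add]
    have h5 : 15 / 16 * (N : ℝ) ^ D * (1 / 24 * (N : ℝ) ^ D) ≤
        (Bz.card : ℝ) * (1 / 24 * (N : ℝ) ^ D) :=
      mul_le_mul_of_nonneg_right h3 (by positivity)
    have h6 : ε * (N : ℝ) ^ (2 * D) ≤ 1 / 64 * ((N : ℝ) ^ D * (N : ℝ) ^ D) := by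
      rw [h4]
      exact mul_le_mul_of_nonneg_right hε (by positivity)
    have h7 : 0 < (N : ℝ) ^ D * (N : ℝ) ^ D := by positivity
    linarith
  obtain ⟨n, hn, hbn⟩ := hex
  rw [hBz, Finset.mem_filter] at hn
  refine ⟨n, hn.1, hn.2, ?_⟩
  have hsub : B.filter (fun m => ¬ (m + z ∈ B ∧ g n m ∧ g (n + z) (m + z))) ⊆
      B.filter (fun m => m + z ∉ B) ∪ bad n := by
    intro m hm
    rw [Finset.mem_filter] at hm
    rw [Finset.mem_union, Finset.mem_filter]
    by_cases hmz : m + z ∈ B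
    · right
      rw [hbad, Finset.mem_filter]
      refine ⟨hm.1, hmz, ?_⟩
      by_contra hc
      push Not at hc
      exact hm.2 ⟨hmz, hc.1, hc.2⟩
    · exact Or.inl ⟨hm.1, hmz⟩
  have hcard : ((B.filter (fun m => ¬ (m + z ∈ B ∧ g n m ∧ g (n + z) (m + z)))).card : ℝ) ≤
      ((B.filter (fun m => m + z ∉ B)).card : ℝ) + ((bad n).card : ℝ) := by
    exact_mod_cast (Finset.card_le_card hsub).trans (Finset.card_union_le _ _)
  linarith

theorem maj : MajStmt := by
  intro D M a ε g hM ha hε hp hst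
  set N := HH D * M with hN
  set B := Bx N a with hB
  have hcB : B.card = N ^ D := card_Bx N a
  have hN0 : 0 < N := by
    rw [hN]
    unfold HH
    positivity
  have hNr : (0 : ℝ) < (N : ℝ) ^ D := by
    have : (0 : ℝ) < N := by exact_mod_cast hN0
    positivity
  have h1 : ((((B ×ˢ B).filter (fun q => ¬ g q.1 q.2)).card : ℕ) : ℝ) ≤
      ε * ((N : ℕ) : ℝ) ^ (2 * D) := by
    have e : {q : (Fin D → ℤ) × (Fin D → ℤ) | q.1 ∈ B ∧ q.2 ∈ B ∧ ¬ g q.1 q.2} =
        (((B ×ˢ B).filter (fun q => ¬ g q.1 q.2) : Finset ((Fin D → ℤ) × (Fin D → ℤ))) :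
          Set ((Fin D → ℤ) × (Fin D → ℤ))) := by
      ext q
      simp only [Set.mem_setOf_eq, Finset.coe_filter, Finset.mem_product, and_assoc]
    rw [e, Set.ncard_coe_finset] at hp
    exact hp
  set St := B.filter (fun m => ¬ g 0 m ∨ ∃ k, m + sh M k ∈ B ∧ ¬ g (sh M k) (m + sh M k)) with hSt
  have h2 : ((St.card : ℕ) : ℝ) ≤ ε * ((N : ℕ) : ℝ) ^ D := by
    have e : {m : Fin D → ℤ | m ∈ B ∧ (¬ g 0 m ∨ ∃ k, m + sh M k ∈ B ∧
        ¬ g (sh M k) (m + sh M k))} = ((St : Finset (Fin D → ℤ)) : Set (Fin D → ℤ)) := by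
      ext m
      rw [hSt]
      simp only [Set.mem_setOf_eq, Finset.coe_filter]
    rw [e, Set.ncard_coe_finset] at hst
    exact hst
  have h0 : (0 : Fin D → ℤ) ∈ B := by
    rw [hB, mem_Bx]
    intro k
    rw [Finset.mem_Ico]
    have hk := ha k
    simp only [Pi.zero_apply]
    constructor <;> omega
  have key := fun (z : Fin D → ℤ) (hz : ∀ k, |z k| ≤ 2 * (M : ℤ)) =>
    exists_n (a := a) (g := g) hM hε h1 z hz
  set n : (Fin D → ℤ) → (Fin D → ℤ) := fun z =>
    if hz : ∀ k, |z k| ≤ 2 * (M : ℤ) then (key z hz).choose else 0 with hn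
  have hn1 : ∀ z, (∀ k, |z k| ≤ 2 * (M : ℤ)) → n z ∈ B ∧ n z + z ∈ B ∧
      ((B.filter (fun m => ¬ (m + z ∈ B ∧ g (n z) m ∧ g (n z + z) (m + z)))).card : ℝ) ≤
        1 / 8 * ((N : ℕ) : ℝ) ^ D := by
    intro z hz
    have e : n z = (key z hz).choose := by
      rw [hn]
      exact dif_pos hz
    rw [e]
    exact ⟨(key z hz).choose_spec.1, (key z hz).choose_spec.2.1, (key z hz).choose_spec.2.2⟩
  refine ⟨n, ?_, ?_, ?_⟩
  · intro z
    by_cases hz : ∀ k, |z k| ≤ 2 * (M : ℤ)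
    · exact ⟨(hn1 z hz).1, fun _ => (hn1 z hz).2.1⟩
    · have e : n z = 0 := by
        rw [hn]
        exact dif_neg hz
      rw [e]
      exact ⟨h0, fun h => absurd h hz⟩
  · intro z z' hz hz'
    have hz2 : ∀ k, |z k| ≤ 2 * (M : ℤ) := fun k => (hz k).trans (by omega)
    have hz2' : ∀ k, |z' k| ≤ 2 * (M : ℤ) := fun k => (hz' k).trans (by omega)
    have hzz : ∀ k, |(z + z') k| ≤ 2 * (M : ℤ) := by
      intro k
      have h3 := abs_add_le (z k) (z' k)
      have h4 := hz k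
      have h5 := hz' k
      rw [Pi.add_apply]
      linarith
    obtain ⟨-, -, c1⟩ := hn1 z hz2
    obtain ⟨-, -, c2⟩ := hn1 z' hz2'
    obtain ⟨-, -, c3⟩ := hn1 (z + z') hzz
    set S1 := B.filter (fun m => ¬ (m + z ∈ B ∧ g (n z) m ∧ g (n z + z) (m + z))) with hS1
    set S2 := B.filter (fun m => ¬ (m + z' ∈ B ∧ g (n z') m ∧ g (n z' + z') (m + z'))) with hS2
    set S3 := B.filter (fun m => ¬ (m + (z + z') ∈ B ∧ g (n (z + z')) m ∧
      g (n (z + z') + (z + z')) (m + (z + z')))) with hS3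
    set S4 := B.filter (fun m => m + z ∈ S2) with hS4
    have c4 : S4.card ≤ S2.card := by
      refine Finset.card_le_card_of_injOn (fun m => m + z) ?_ ?_
      · intro m hm
        rw [Finset.mem_coe, hS4, Finset.mem_filter] at hm
        exact hm.2
      · intro m _ m' _ hmm
        exact add_right_cancel hmm
    have c4' : (S4.card : ℝ) ≤ S2.card := by exact_mod_cast c4
    have hex : ∃ m ∈ B, m ∉ S1 ∪ S3 ∪ S4 := by
      by_contra hcon
      push Not at hcon
      have hle : B.card ≤ S1.card + S3.card + S4.card :=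
        (Finset.card_le_card fun m hm => hcon m hm).trans ((Finset.card_union_le _ _).trans
          (Nat.add_le_add_right (Finset.card_union_le _ _) _))
      have hle' : (B.card : ℝ) ≤ S1.card + S3.card + S4.card := by exact_mod_cast hle
      rw [hcB] at hle'
      push_cast at hle'
      linarith
    obtain ⟨m, hm, hm2⟩ := hex
    rw [Finset.mem_union, Finset.mem_union] at hm2
    push Not at hm2
    obtain ⟨⟨m1, m3⟩, m4⟩ := hm2
    have g1 : m + z ∈ B ∧ g (n z) m ∧ g (n z + z) (m + z) := by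
      by_contra hc
      exact m1 (Finset.mem_filter.2 ⟨hm, hc⟩)
    have g3 : m + (z + z') ∈ B ∧ g (n (z + z')) m ∧
        g (n (z + z') + (z + z')) (m + (z + z')) := by
      by_contra hc
      exact m3 (Finset.mem_filter.2 ⟨hm, hc⟩)
    have g2 : m + z + z' ∈ B ∧ g (n z') (m + z) ∧ g (n z' + z') (m + z + z') := by
      by_contra hc
      exact m4 (Finset.mem_filter.2 ⟨hm, Finset.mem_filter.2 ⟨g1.1, hc⟩⟩)
    have ea : m + z + z' = m + (z + z') := add_assoc m z z'
    rw [ea] at g2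
    exact ⟨m, hm, g1.1, g3.1, g1.2.1, g1.2.2, g2.2.1, g2.2.2, g3.2.1, g3.2.2⟩
  · intro k
    have hsh : ∀ i, |sh M k i| ≤ 2 * (M : ℤ) := by
      intro i
      unfold sh
      by_cases hi : i = k
      · subst hi
        rw [Pi.single_eq_same, abs_of_nonneg (by positivity)]
        omega
      · rw [Pi.single_eq_of_ne hi, abs_zero]
        positivity
    obtain ⟨-, -, c1⟩ := hn1 (sh M k) hsh
    set S1 := B.filter (fun m => ¬ (m + sh M k ∈ B ∧ g (n (sh M k)) m ∧
      g (n (sh M k) + sh M k) (m + sh M k))) with hS1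
    have hex : ∃ m ∈ B, m ∉ S1 ∪ St := by
      by_contra hcon
      push Not at hcon
      have hle : B.card ≤ S1.card + St.card :=
        (Finset.card_le_card fun m hm => hcon m hm).trans (Finset.card_union_le _ _)
      have hle' : (B.card : ℝ) ≤ S1.card + St.card := by exact_mod_cast hle
      rw [hcB] at hle'
      push_cast at hle'
      have h3 : ε * ((N : ℕ) : ℝ) ^ D ≤ 1 / 64 * ((N : ℕ) : ℝ) ^ D :=
        mul_le_mul_of_nonneg_right hε hNr.le
      linarith
    obtain ⟨m, hm, hm2⟩ := hex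
    rw [Finset.mem_union] at hm2
    push Not at hm2
    obtain ⟨m1, m2⟩ := hm2
    have g1 : m + sh M k ∈ B ∧ g (n (sh M k)) m ∧ g (n (sh M k) + sh M k) (m + sh M k) := by
      by_contra hc
      exact m1 (Finset.mem_filter.2 ⟨hm, hc⟩)
    have g2 : g 0 m := by
      by_contra hc
      exact m2 (Finset.mem_filter.2 ⟨hm, Or.inl hc⟩)
    have g3 : g (sh M k) (m + sh M k) := by
      by_contra hc
      exact m2 (Finset.mem_filter.2 ⟨hm, Or.inr ⟨k, g1.1, hc⟩⟩)
    exact ⟨m, hm, g1.1, g1.2.1, g1.2.2, g2, g3⟩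

end Pool.Agent.QSN.H75
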